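import Mathlib
import Pool.Agent.Results.MP_bf7e1e_gt.DimProduct

/-!
# MP_bf7e1e_gt: the ordinal space `ω₁` times a Lindelöf space of weight at most `ℵ₁`

A stronger form of the negative answer: the countably compact factor is the space `ω₁` of all
countable ordinals, which is first countable, locally compact and hereditarily normal, and the
other factor is a Lindelöf (hence normal) subspace of `ℝ^ω₁`.
-/

set_option autoImplicit false

namespace Pool.Agent.Results.MP_bf7e1e_gt.OmegaOneFactor

open Set Filter Topology Pool.Agent.Results.MP_bf7e1e_gt.DimProduct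

section Ordinal

variable {W : Type} [LinearOrder W] [WellFoundedLT W] [TopologicalSpace W] [OrderTopology W]

theorem firstCountable (hc : ∀ a : W, (Iio a).Countable) (hu : ¬ (univ : Set W).Countable) :
    FirstCountableTopology W := by
  refine ⟨fun a => ?_⟩
  have hopen : IsOpen (Iic a) := (isClopen_Iic hc hu a).isOpen
  have h1 : 𝓝 a = 𝓝[≤] a := (hopen.nhdsWithin_eq self_mem_Iic).symm
  rw [h1]
  by_cases hb : ∃ b, b < a
  · have h2 : (𝓝[≤] a).HasBasis (· < a) fun x => Ioc x a := nhdsLE_basis_of_exists_lt hb
    exact (HasCountableBasis.mk h2 (hc a)).isCountablyGenerated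
  · push Not at hb
    have h3 : Iic a = {a} := by
      ext x
      simp only [mem_Iic, mem_singleton_iff]
      exact ⟨fun h => le_antisymm h (hb x), fun h => h.le⟩
    rw [h3, nhdsWithin_singleton]
    exact isCountablyGenerated_pure a

theorem locallyCompact (hc : ∀ a : W, (Iio a).Countable) (hu : ¬ (univ : Set W).Countable)
    [Nonempty W] : LocallyCompactSpace W := by
  have hwl : WeaklyLocallyCompactSpace W := by
    refine ⟨fun a => ⟨Iic a, ?_, (isClopen_Iic hc hu a).isOpen.mem_nhds self_mem_Iic⟩⟩
    let m : W := wellFounded_lt.min univ univ_nonempty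
    have hm : ∀ x, m ≤ x := fun x => not_lt.mp (wellFounded_lt.not_lt_min univ (mem_univ x))
    have h4 : Iic a = Icc m a := by
      ext x
      exact ⟨fun h => ⟨hm x, h⟩, fun h => h.2⟩
    rw [h4]
    letI : OrderBot W := { bot := m, bot_le := hm }
    letI := WellFoundedLT.conditionallyCompleteLinearOrderBot W
    exact isCompact_Icc
  infer_instance

end Ordinal

/-- **Stronger negative answer to Q1.** Let `X` be the space of all countable ordinals (a
well-ordered set of cardinality `ℵ₁` all of whose proper initial segments are countable, with the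
order topology). It is countably compact, first countable, locally compact and hereditarily normal,
with `dim X = 0`. There is a nonempty Lindelöf, hence normal, Tychonoff space `Y`, homeomorphic to
a subspace of `ℝ^X` (so of weight at most `ℵ₁`), with `dim Y = 0` and `dim (X × Y) ≥ 1`. -/
theorem result : ∃ (X : Type) (_ : LinearOrder X) (_ : WellFoundedLT X) (_ : TopologicalSpace X)
    (_ : OrderTopology X) (Y : Type) (_ : TopologicalSpace Y),
    Cardinal.mk X = Cardinal.aleph 1 ∧ (∀ a : X, (Iio a).Countable) ∧
    T5Space X ∧ LocallyCompactSpace X ∧ FirstCountableTopology X ∧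
    T35Space X ∧ T35Space Y ∧ NormalSpace Y ∧ Nonempty X ∧ Nonempty Y ∧
    CountablyCompactSpace X ∧ LindelofSpace Y ∧ (∃ e : Y → (X → ℝ), IsEmbedding e) ∧
    covDim X = 0 ∧ covDim Y = 0 ∧ 1 ≤ covDim (X × Y) ∧
    ¬ covDim (X × Y) ≤ covDim X + covDim Y := by
  classical
  let W : Type := (Cardinal.aleph 1).ord.ToType
  have hW : Cardinal.mk W = Cardinal.aleph 1 := by simp [W]
  have hc : ∀ a : W, (Iio a).Countable := by
    intro a
    have h1 : Cardinal.mk (Iio a) < Cardinal.mk W := Cardinal.mk_Iio_lt a (by simp [W])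
    rw [hW] at h1
    rw [← Cardinal.le_aleph0_iff_set_countable, ← Order.lt_succ_iff, ← Cardinal.aleph_zero,
      Cardinal.succ_aleph]
    simpa using h1
  have hu : ¬ (univ : Set W).Countable := by
    intro h
    have h1 := Cardinal.le_aleph0_iff_set_countable.mpr h
    rw [Cardinal.mk_univ, hW] at h1
    exact absurd h1 (not_le.mpr Cardinal.aleph0_lt_aleph_one)
  have hne : Nonempty W := by
    by_contra hne
    rw [not_nonempty_iff] at hne
    exact hu (Set.countable_univ)
  let tW : TopologicalSpace W := Preorder.topology W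
  have oW : OrderTopology W := ⟨rfl⟩
  obtain ⟨ρ, hρ⟩ := exists_rho W (by rw [hW]; exact Cardinal.aleph_one_le_continuum)
  have hYne : Nonempty (YY ρ) := by
    obtain ⟨y, hy1, hy2⟩ := hρ (Icc 0 1) isClosed_Icc (by
      intro h
      have h1 := (Cardinal.le_aleph0_iff_set_countable).mpr h
      rw [Cardinal.mk_Icc_real zero_lt_one] at h1
      exact absurd h1 (not_le.mpr Cardinal.aleph0_lt_continuum))
      (wellFounded_lt.min univ (univ_nonempty (α := W)))
    refine ⟨⟨fun _ => y, monotone_const, fun a => ?_, lowerSemicontinuous_const,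
      fun g => Or.inr fun a _ => rfl⟩⟩
    rw [hy2]
    exact not_lt.mp (wellFounded_lt.not_lt_min univ (mem_univ a))
  have hYL : LindelofSpace (YY ρ) := lindelof_YY hc hu ρ
  have hYd : DimLE (YY ρ) 0 := by
    apply dimLE_zero_of_lindelof
    intro z O hO hz
    refine clopen_base ?_ z O hO hz
    intro a b hab α
    obtain ⟨β, hβ⟩ := exists_gt' hc hu α
    obtain ⟨y, hy1, hy2⟩ := hρ (Icc ((2 * a + b) / 3) ((a + 2 * b) / 3)) isClosed_Icc (by
      intro h
      have h1 := (Cardinal.le_aleph0_iff_set_countable).mpr h
      rw [Cardinal.mk_Icc_real (by linarith)] at h1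
      exact absurd h1 (not_le.mpr Cardinal.aleph0_lt_continuum)) β
    refine ⟨y, ⟨by linarith [hy1.1], by linarith [hy1.2]⟩, ?_⟩
    rw [hy2]
    exact not_le.mpr hβ
  have hXd : DimLE W 0 := dim_W hc hu
  have h1 : covDim W = 0 := covDim_eq_zero hXd
  have h2 : covDim (YY ρ) = 0 := covDim_eq_zero hYd
  have h3 : 1 ≤ covDim (W × YY ρ) := one_le_covDim (not_dim_prod hc hu hρ)
  refine ⟨W, inferInstance, inferInstance, tW, oW, YY ρ, inferInstance, hW, hc, inferInstance,
    locallyCompact hc hu, firstCountable hc hu, inferInstance, inferInstance, inferInstance, hne,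
    hYne, cc_W hc hu, hYL, ⟨Subtype.val, IsEmbedding.subtypeVal⟩, h1, h2, h3, ?_⟩
  rw [h1, h2, add_zero]
  intro hle
  have h4 : (1 : EReal) ≤ 0 := h3.trans hle
  exact absurd h4 (by norm_num)

end Pool.Agent.Results.MP_bf7e1e_gt.OmegaOneFactor
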